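import Mathlib

/-!
# Transcendence measure of `π` by interpolation determinants: definitions

Rows `(t, s)`, columns `(a, b)`; the entry is the value at the formal point `(s y, (-1)^s)` of `D^t (z^a w^b)`,
`D = ∂_z + w ∂_w`; at `y = π i` it is the value at `z = s π i` of the `t`-th derivative of `z^a e^(bz)`.
-/

set_option autoImplicit false

namespace Pool.Agent.Helper95.PIM

open Polynomial

/-- the entries -/
noncomputable def E (t s a b : ℕ) : ℤ[X] :=
  ∑ j ∈ Finset.range (t + 1),
    C ((-1) ^ (b * s) * ((t.choose j * a.descFactorial j * b ^ (t - j) * s ^ (a - j) : ℕ) : ℤ)) * X ^ (a - j)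

/-- the Taylor coefficients of `z^a e^(bz)` -/
noncomputable def cc (a b k : ℕ) : ℂ := if a ≤ k then (b : ℂ) ^ (k - a) / ((k - a).factorial : ℂ) else 0

/-- the `t`-th derivative of `z^k` at `s π i` -/
noncomputable def uu (t s k : ℕ) : ℂ := (k.descFactorial t : ℂ) * ((s : ℂ) * ((Real.pi : ℂ) * Complex.I)) ^ (k - t)

/-- the bound of the terms -/
noncomputable def kap (T A B S : ℕ) : ℝ := T.factorial * (24 * S : ℝ) ^ A * Real.exp (24 * S * B)

end Pool.Agent.Helper95.PIM
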